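import Pool.Agent.Helper31.LW.Goals

/-!
# Project LW, packet MY0
-/

open MeasureTheory Set
open scoped ENNReal Matrix
open Pool.Agent.Helper47.AQ

noncomputable section

namespace Pool.Agent.Helper23.LW

open Pool.Agent.Helper31.LQ Pool.Agent.Helper31.LW

/-- Measurability of the integrand in both variables, abstract form. -/
theorem meas_abs {A B : Type} [MeasurableSpace A] [MeasurableSpace B] (ν : Measure B) [SFinite ν]
    (N : A → B → ℝ) (k : ℕ) (h1 : Measurable fun p : A × B => N p.1 p.2) :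
    Measurable fun p : A × ℝ =>
      ENNReal.ofReal (p.2 ^ k) * ∫⁻ b, ENNReal.ofReal (Real.exp (-(p.2 * N p.1 b))) ∂ν := by
  have h3 : Measurable fun p : (A × ℝ) × B => N p.1.1 p.2 := by
    have h := h1.comp ((measurable_fst.comp measurable_fst).prodMk
      measurable_snd : Measurable fun p : (A × ℝ) × B => ((p.1.1, p.2) : A × B))
    exact h
  have h4 : Measurable fun p : (A × ℝ) × B => p.1.2 :=
    measurable_snd.comp measurable_fst
  have h2 : Measurable fun p : (A × ℝ) × B =>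
      ENNReal.ofReal (Real.exp (-(p.1.2 * N p.1.1 p.2))) :=
    ENNReal.measurable_ofReal.comp (Real.measurable_exp.comp ((h4.mul h3).neg))
  have h5 : Measurable fun p : A × ℝ =>
      ∫⁻ b, ENNReal.ofReal (Real.exp (-(p.2 * N p.1 b))) ∂ν :=
    h2.lintegral_prod_right'
  have h6 : Measurable fun p : A × ℝ => ENNReal.ofReal (p.2 ^ k) :=
    ENNReal.measurable_ofReal.comp (measurable_snd.pow_const _)
  exact h6.mul h5

/-- Measurability of the integrand in both variables. -/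
theorem meas_F (hV : VPOS) (e m : ℕ) (K : Set (Fin (e + 1 + m) → ℝ)) (hK : IsCompact K) :
    Measurable fun p : (Fin m → Fin e → ℝ) × ℝ =>
      ENNReal.ofReal (p.2 ^ (e + m)) * Ps K p.1 p.2 :=
  meas_abs (volume : Measure (Fin m → ℝ)) (vN K) (e + m) ((hV e m).2.2.2 K hK)

/-- The double integral as an integral over the product. -/
theorem dbl (hV : VPOS) (e m : ℕ) (K : Set (Fin (e + 1 + m) → ℝ)) (hK : IsCompact K) :
    (∫⁻ Z : Fin m → Fin e → ℝ, ∫⁻ r in Ioi (0 : ℝ),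
      ENNReal.ofReal (r ^ (e + m)) * Ps K Z r) =
    ∫⁻ p, ENNReal.ofReal (p.2 ^ (e + m)) * Ps K p.1 p.2
      ∂((volume : Measure (Fin m → Fin e → ℝ)).prod ((volume : Measure ℝ).restrict (Ioi 0))) :=
  (lintegral_prod _ (meas_F hV e m K hK).aemeasurable).symm

theorem gMY0 (hCHF : CHF) (hPSF : PSF) (hV : VPOS) (hJ : JFIN) : MY0 := by
  intro e m X hX
  obtain ⟨c, hc0, hct, hc⟩ := hCHF e m
  have hcomp : ∀ t ∈ Icc (0 : ℝ) 1, IsCompact (X t) := fun t ht => (hX.body t ht).2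
  have h0 : (0 : ℝ) ∈ Icc (0 : ℝ) 1 := ⟨le_refl _, zero_le_one⟩
  refine ⟨?_, ?_⟩
  · intro t ht
    rw [hc _ (hX.body 0 h0), hc _ (hX.body t ht)]
    refine mul_le_mul_right ?_ c
    refine lintegral_mono fun Z => ?_
    refine setLIntegral_mono' measurableSet_Ioi fun r hr => ?_
    exact mul_le_mul_right ((hPSF e m X hX Z r hr).1 t ht) _
  · intro t ht heq t' ht'
    have ht1 : t ∈ Icc (0 : ℝ) 1 := ⟨ht.1.le, ht.2.le⟩
    have hfin : IQ 1 (fK (e + 1) (X 0)) < ⊤ :=
      (hJ (e + 1 + m) (e + 1) (by omega) (by omega) (X 0) (hX.body 0 h0) 1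
        Matrix.PosDef.one).2
    rw [hc _ (hX.body 0 h0), dbl hV e m _ (hcomp 0 h0)] at hfin
    rw [hc _ (hX.body 0 h0), hc _ (hX.body t ht1), dbl hV e m _ (hcomp 0 h0),
      dbl hV e m _ (hcomp t ht1)] at heq
    rw [hc _ (hX.body 0 h0), hc _ (hX.body t' ht'), dbl hV e m _ (hcomp 0 h0),
      dbl hV e m _ (hcomp t' ht')]
    have hB : (∫⁻ p, ENNReal.ofReal (p.2 ^ (e + m)) * Ps (X 0) p.1 p.2
        ∂((volume : Measure (Fin m → Fin e → ℝ)).prod
          ((volume : Measure ℝ).restrict (Ioi 0)))) ≠ ⊤ :=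
      (ENNReal.lt_top_of_mul_ne_top_right hfin.ne hc0.ne').ne
    have hAB := (ENNReal.mul_right_inj hc0.ne' hct.ne).1 heq
    have hpos : ∀ᵐ p ∂((volume : Measure (Fin m → Fin e → ℝ)).prod
        ((volume : Measure ℝ).restrict (Ioi 0))), 0 < p.2 :=
      Measure.quasiMeasurePreserving_snd.ae (ae_restrict_mem measurableSet_Ioi)
    have hle : (fun p : (Fin m → Fin e → ℝ) × ℝ =>
        ENNReal.ofReal (p.2 ^ (e + m)) * Ps (X 0) p.1 p.2) ≤ᵐ[
        (volume : Measure (Fin m → Fin e → ℝ)).prod ((volume : Measure ℝ).restrict (Ioi 0))]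
        fun p => ENNReal.ofReal (p.2 ^ (e + m)) * Ps (X t) p.1 p.2 := by
      filter_upwards [hpos] with p hp
      exact mul_le_mul_right ((hPSF e m X hX p.1 p.2 hp).1 t ht1) _
    have hae := ae_eq_of_ae_le_of_lintegral_le hle hB
      (meas_F hV e m _ (hcomp t ht1)).aemeasurable hAB.le
    have hlt := ae_lt_top (meas_F hV e m _ (hcomp 0 h0)) hB
    congr 1
    refine lintegral_congr_ae ?_
    filter_upwards [hpos, hae, hlt] with p hp h1 h2
    have hr0 : ENNReal.ofReal (p.2 ^ (e + m)) ≠ 0 :=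
      (ENNReal.ofReal_pos.2 (pow_pos hp _)).ne'
    have h3 : Ps (X t) p.1 p.2 = Ps (X 0) p.1 p.2 :=
      ((ENNReal.mul_right_inj hr0 ENNReal.ofReal_ne_top).1 h1).symm
    have h4 : Ps (X 0) p.1 p.2 < ⊤ := ENNReal.lt_top_of_mul_ne_top_right h2.ne hr0
    rw [(hPSF e m X hX p.1 p.2 hp).2 h4 t ht h3 t' ht']

end Pool.Agent.Helper23.LW
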